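import Pool.Agent.H1.CM.Targets1

/-!
Module AK: an automorphism of the function field which preserves the canonical forms is linear
in homogeneous coordinates.
-/

namespace Pool.Agent.H1.CM

namespace AKm

variable {k K : Type} [Field k] [Field K]

/-- Induction principle for `InSpan`. -/
lemma induct {A C : Type} [CommRing A] [CommRing C] {ι : A →+* C} {β : Idx → C} {R : Set Idx}
    (P : C → Prop) (h0 : P 0) (hadd : ∀ x y, P x → P y → P (x + y))
    (hsm : ∀ (a : A) x, P x → P (ι a * x)) (hmon : ∀ s ∈ R, P (β s)) {c : C}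
    (hc : InSpan ι β R c) : P c := by
  classical
  obtain ⟨g, hg, rfl⟩ := hc
  unfold comb
  rw [Finsupp.sum]
  refine Finset.sum_induction _ P (fun x y => hadd x y) h0 ?_
  intro s hs
  exact hsm _ _ (hmon s (hg s hs))

lemma mem_regd {d : ℤ} {s : Idx} : s ∈ regd d ∅ ↔
    0 ≤ s.1 ∧ 0 ≤ s.2.1 ∧ s.1 + s.2.1 + dg s.2.2 ≤ d := by
  unfold regd expo
  simp only [Set.mem_ofPred_eq, Finset.notMem_empty, not_false_eq_true, forall_const]
  constructor
  · intro h
    have h0 := h 0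
    have h1 := h 1
    have h2 := h 2
    simp at h0 h1 h2
    refine ⟨h0, h1, by linarith⟩
  · rintro ⟨h0, h1, h2⟩ r
    fin_cases r
    · simpa using h0
    · simpa using h1
    · simp
      linarith

lemma dg_nonneg (t : Fin 4) : 0 ≤ dg t := by
  fin_cases t <;> simp [dg]

lemma regd_finite (d : ℤ) : (regd d ∅).Finite := by
  refine Set.Finite.subset ((Set.finite_Icc (0 : ℤ) d).prod
    ((Set.finite_Icc (0 : ℤ) d).prod (Set.finite_univ (α := Fin 4)))) ?_
  intro s hs
  rw [mem_regd] at hs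
  have := dg_nonneg s.2.2
  simp only [Set.mem_prod, Set.mem_Icc, Set.mem_univ, and_true]
  refine ⟨⟨hs.1, by linarith⟩, hs.2.1, by linarith⟩

/-- An injective additive `j`-linear self map of `W d` is onto. -/
lemma onto (j : k →+* K) (q : Quad K) (d : ℤ) (φ : K → K) (hadd : ∀ x y, φ (x + y) = φ x + φ y)
    (hsm : ∀ c x, φ (j c * x) = j c * φ x) (hinj : Function.Injective φ)
    (hmaps : ∀ f ∈ WK j q d, φ f ∈ WK j q d) : ∀ g ∈ WK j q d, ∃ f ∈ WK j q d, φ f = g := by
  let _ : Algebra k K := j.toAlgebra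
  have hs : ∀ (c : k) (x : K), c • x = j c * x := fun c x => rfl
  let W : Submodule k K := Submodule.span k (q.mon '' regd d ∅)
  have hW : ∀ f, f ∈ W ↔ f ∈ WK j q d := by
    intro f
    rw [Finsupp.mem_span_image_iff_linearCombination]
    constructor
    · rintro ⟨l, hl, rfl⟩
      refine ⟨l, fun s hs' => hl hs', ?_⟩
      unfold comb
      rfl
    · rintro ⟨l, hl, rfl⟩
      refine ⟨l, fun s hs' => hl s hs', ?_⟩
      unfold comb
      rfl
  have : FiniteDimensional k W := FiniteDimensional.span_of_finite k ((regd_finite d).image _)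
  let φ' : K →ₗ[k] K :=
    { toFun := φ
      map_add' := hadd
      map_smul' := fun c x => by simp only [hs, RingHom.id_apply]; exact hsm c x }
  have hm : ∀ x ∈ W, φ' x ∈ W := fun x hx => (hW _).2 (hmaps x ((hW x).1 hx))
  let ψ : W →ₗ[k] W := φ'.restrict hm
  have hψ : Function.Injective ψ := by
    intro x y hxy
    apply Subtype.ext
    apply hinj
    exact congrArg Subtype.val hxy
  have hsurj := LinearMap.injective_iff_surjective.1 hψ
  intro g hg
  obtain ⟨f, hf⟩ := hsurj ⟨g, (hW g).2 hg⟩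
  exact ⟨f, (hW _).1 f.2, congrArg Subtype.val hf⟩

variable (j : k →+* K) (q : Quad K)

lemma W_zero {d : ℤ} : (0 : K) ∈ WK j q d := InSpan.zero _ _ _

lemma W_add {d : ℤ} {f g : K} (hf : f ∈ WK j q d) (hg : g ∈ WK j q d) : f + g ∈ WK j q d :=
  InSpan.add hf hg

lemma W_smul {d : ℤ} (c : k) {f : K} (hf : f ∈ WK j q d) : j c * f ∈ WK j q d :=
  InSpan.smul c hf

lemma W_mono {d e : ℤ} (h : d ≤ e) {f : K} (hf : f ∈ WK j q d) : f ∈ WK j q e := by
  refine InSpan.mono ?_ hf
  intro s hs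
  rw [mem_regd] at hs ⊢
  exact ⟨hs.1, hs.2.1, by linarith⟩

lemma W_mon {d : ℤ} {s : Idx} (h0 : 0 ≤ s.1) (h1 : 0 ≤ s.2.1)
    (h2 : s.1 + s.2.1 + dg s.2.2 ≤ d) : q.mon s ∈ WK j q d :=
  InSpan.of_mem (mem_regd.2 ⟨h0, h1, h2⟩)

lemma one_mem {d : ℤ} (h : 0 ≤ d) : (1 : K) ∈ WK j q d := by
  have := W_mon j q (d := d) (s := (0, 0, 0)) le_rfl le_rfl (by simpa [dg] using h)
  rwa [Quad.mon_zero] at this

lemma X_mem {d : ℤ} (h : 1 ≤ d) : (q.X : K) ∈ WK j q d := by
  have := W_mon j q (d := d) (s := (1, 0, 0)) (by norm_num) le_rfl (by simpa [dg] using h)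
  rwa [Quad.mon_X] at this

lemma Y_mem {d : ℤ} (h : 1 ≤ d) : (q.Y : K) ∈ WK j q d := by
  have := W_mon j q (d := d) (s := (0, 1, 0)) le_rfl (by norm_num) (by simpa [dg] using h)
  rwa [Quad.mon_Y] at this

lemma n_mem {d : ℤ} (h : 2 ≤ d) : q.n ∈ WK j q d := by
  have := W_mon j q (d := d) (s := (0, 0, 1)) le_rfl le_rfl (by simpa [dg] using h)
  rwa [Quad.mon_n] at this

lemma w_mem {d : ℤ} (h : 5 ≤ d) : q.w ∈ WK j q d := by
  have := W_mon j q (d := d) (s := (0, 0, 2)) le_rfl le_rfl (by simpa [dg] using h)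
  rwa [Quad.mon_w] at this

lemma mul_X {d : ℤ} {f : K} (hf : f ∈ WK j q d) : (q.X : K) * f ∈ WK j q (d + 1) := by
  have := InSpan.shift (ι := j) (q := q) (R := regd d ∅) (R' := regd (d + 1) ∅) 1 0 (by
    intro s hs
    rw [mem_regd] at hs ⊢
    simp only
    refine ⟨by linarith [hs.1], by linarith [hs.2.1], by linarith [hs.2.2]⟩) hf
  have e : InSpan j q.mon (regd (d + 1) ∅) _ := this
  simp only [zpow_one, zpow_zero, Units.val_one, mul_one] at e
  exact e

lemma mul_Y {d : ℤ} {f : K} (hf : f ∈ WK j q d) : (q.Y : K) * f ∈ WK j q (d + 1) := by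
  have := InSpan.shift (ι := j) (q := q) (R := regd d ∅) (R' := regd (d + 1) ∅) 0 1 (by
    intro s hs
    rw [mem_regd] at hs ⊢
    simp only
    refine ⟨by linarith [hs.1], by linarith [hs.2.1], by linarith [hs.2.2]⟩) hf
  have e : InSpan j q.mon (regd (d + 1) ∅) _ := this
  simp only [zpow_one, zpow_zero, Units.val_one, one_mul] at e
  exact e

/-- elements of `W 1` -/
lemma W1 {f : K} (hf : f ∈ WK j q 1) : ∃ a b c : k, f = j a * q.X + j b * q.Y + j c := by
  refine induct (P := fun f => ∃ a b c : k, f = j a * q.X + j b * q.Y + j c)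
    ⟨0, 0, 0, by simp⟩ ?_ ?_ ?_ hf
  · rintro x y ⟨a, b, c, rfl⟩ ⟨a', b', c', rfl⟩
    exact ⟨a + a', b + b', c + c', by simp only [map_add]; ring⟩
  · rintro e x ⟨a, b, c, rfl⟩
    exact ⟨e * a, e * b, e * c, by simp only [map_mul]; ring⟩
  · rintro ⟨i, l, t⟩ hs
    rw [mem_regd] at hs
    simp only at hs
    obtain ⟨h0, h1, h2⟩ := hs
    have ht : t = 0 := by
      fin_cases t
      · rfl
      all_goals simp [dg] at h2; omega
    subst ht
    simp only [dg, Matrix.cons_val_zero, add_zero] at h2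
    have : (i = 0 ∧ l = 0) ∨ (i = 1 ∧ l = 0) ∨ (i = 0 ∧ l = 1) := by omega
    rcases this with ⟨rfl, rfl⟩ | ⟨rfl, rfl⟩ | ⟨rfl, rfl⟩
    · exact ⟨0, 0, 1, by rw [Quad.mon_zero]; simp⟩
    · exact ⟨1, 0, 0, by rw [Quad.mon_X]; simp⟩
    · exact ⟨0, 1, 0, by rw [Quad.mon_Y]; simp⟩

/-- elements of `W 0` -/
lemma W0 {f : K} (hf : f ∈ WK j q 0) : ∃ a : k, f = j a := by
  refine induct (P := fun f => ∃ a : k, f = j a) ⟨0, by simp⟩ ?_ ?_ ?_ hf
  · rintro x y ⟨a, rfl⟩ ⟨a', rfl⟩
    exact ⟨a + a', by simp only [map_add]⟩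
  · rintro e x ⟨a, rfl⟩
    exact ⟨e * a, by simp only [map_mul]⟩
  · rintro ⟨i, l, t⟩ hs
    rw [mem_regd] at hs
    simp only at hs
    obtain ⟨h0, h1, h2⟩ := hs
    have ht : t = 0 := by
      fin_cases t
      · rfl
      all_goals simp [dg] at h2; omega
    subst ht
    simp only [dg, Matrix.cons_val_zero, add_zero] at h2
    have hi : i = 0 := by omega
    have hl : l = 0 := by omega
    subst hi
    subst hl
    exact ⟨1, by rw [Quad.mon_zero]; simp⟩

lemma mul_W1 {d : ℤ} {f g : K} (hf : f ∈ WK j q 1) (hg : g ∈ WK j q d) :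
    f * g ∈ WK j q (d + 1) := by
  obtain ⟨a, b, c, rfl⟩ := W1 j q hf
  have h1 := W_smul j q a (mul_X j q hg)
  have h2 := W_smul j q b (mul_Y j q hg)
  have h3 := W_smul j q c (W_mono j q (show d ≤ d + 1 by linarith) hg)
  have := W_add j q (W_add j q h1 h2) h3
  convert this using 1
  ring

lemma j_mem_LF (c : k) : j c ∈ LFs j q := Subfield.subset_closure (Or.inl ⟨c, rfl⟩)

lemma X_mem_LF : (q.X : K) ∈ LFs j q := Subfield.subset_closure (Or.inr (by simp))

lemma Y_mem_LF : (q.Y : K) ∈ LFs j q := Subfield.subset_closure (Or.inr (by simp))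

lemma LF_le_KY : LFs j q ≤ KYs j q := by
  refine Subfield.closure_mono ?_
  intro x hx
  rcases hx with hx | hx
  · exact Or.inl hx
  · rcases hx with hx | hx
    · exact Or.inr (Or.inl hx)
    · exact Or.inr (Or.inr (Or.inl hx))

lemma n_mem_KY : q.n ∈ KYs j q := Subfield.subset_closure (Or.inr (by simp))

lemma W1_LF {f : K} (hf : f ∈ WK j q 1) : f ∈ LFs j q := by
  obtain ⟨a, b, c, rfl⟩ := W1 j q hf
  exact add_mem (add_mem (mul_mem (j_mem_LF j q a) (X_mem_LF j q))
    (mul_mem (j_mem_LF j q b) (Y_mem_LF j q))) (j_mem_LF j q c)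

lemma mon_LF (i l : ℤ) : q.mon (i, l, 0) ∈ LFs j q := by
  unfold Quad.mon
  simp only [Quad.e, Matrix.cons_val_zero, mul_one, Units.val_zpow_eq_zpow_val]
  exact mul_mem (zpow_mem (X_mem_LF j q) _) (zpow_mem (Y_mem_LF j q) _)

lemma mon_1 (i l : ℤ) : q.mon (i, l, 1) = q.mon (i, l, 0) * q.n := by
  simp [Quad.mon, Quad.e]

lemma mon_2 (i l : ℤ) : q.mon (i, l, 2) = q.mon (i, l, 0) * q.w := by
  simp [Quad.mon, Quad.e]

lemma mon_3 (i l : ℤ) : q.mon (i, l, 3) = q.mon (i, l, 1) * q.w := by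
  simp [Quad.mon, Quad.e]
  ring

lemma mon_1_KY (i l : ℤ) : q.mon (i, l, 1) ∈ KYs j q := by
  rw [mon_1]
  exact mul_mem (LF_le_KY j q (mon_LF j q i l)) (n_mem_KY j q)

/-- `W d` lies in `k(X, Y, n)` for `d ≤ 4`. -/
lemma W_KY {d : ℤ} (hd : d ≤ 4) {f : K} (hf : f ∈ WK j q d) : f ∈ KYs j q := by
  refine induct (P := fun f => f ∈ KYs j q) (zero_mem _) (fun x y => add_mem) ?_ ?_ hf
  · intro e x hx
    exact mul_mem (LF_le_KY j q (j_mem_LF j q e)) hx
  · rintro ⟨i, l, t⟩ hs
    rw [mem_regd] at hs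
    simp only at hs
    obtain ⟨h0, h1, h2⟩ := hs
    fin_cases t
    · exact LF_le_KY j q (mon_LF j q i l)
    · exact mon_1_KY j q i l
    · simp [dg] at h2; omega
    · simp [dg] at h2; omega

/-- Elements of `W 8`. -/
lemma W8 {f : K} (hf : f ∈ WK j q 8) : ∃ P ∈ KYs j q, ∃ Q ∈ WK j q 3, f = P + Q * q.w := by
  refine induct (P := fun f => ∃ P ∈ KYs j q, ∃ Q ∈ WK j q 3, f = P + Q * q.w)
    ⟨0, zero_mem _, 0, W_zero j q, by simp⟩ ?_ ?_ ?_ hf
  · rintro x y ⟨P, hP, Q, hQ, rfl⟩ ⟨P', hP', Q', hQ', rfl⟩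
    exact ⟨P + P', add_mem hP hP', Q + Q', W_add j q hQ hQ', by ring⟩
  · rintro e x ⟨P, hP, Q, hQ, rfl⟩
    exact ⟨j e * P, mul_mem (LF_le_KY j q (j_mem_LF j q e)) hP, j e * Q, W_smul j q e hQ, by ring⟩
  · rintro ⟨i, l, t⟩ hs
    rw [mem_regd] at hs
    simp only at hs
    obtain ⟨h0, h1, h2⟩ := hs
    fin_cases t
    · exact ⟨_, LF_le_KY j q (mon_LF j q i l), 0, W_zero j q, by simp⟩
    · exact ⟨_, mon_1_KY j q i l, 0, W_zero j q, by simp⟩
    · refine ⟨0, zero_mem _, q.mon (i, l, 0), W_mon j q h0 h1 ?_, ?_⟩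
      · simp [dg] at h2 ⊢; omega
      · have := mon_2 q i l
        simp only [zero_add]
        exact this
    · refine ⟨0, zero_mem _, q.mon (i, l, 1), W_mon j q h0 h1 ?_, ?_⟩
      · simp [dg] at h2 ⊢; omega
      · have := mon_3 q i l
        simp only [zero_add]
        exact this


section main

variable (h2 : (2 : k) = 0) (hF : FFM j q) (a : K ≃+* K) (ha : ∀ c, a (j c) = j c)

include ha in
lemma symm_j (c : k) : a.symm (j c) = j c := by
  rw [RingEquiv.symm_apply_eq, ha]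

include ha in
/-- `a` preserves `k(X, Y, n)`. -/
lemma a_KY {h : K} (hh : h ≠ 0) (h4 : ∀ f ∈ WK j q 4, a f * h ∈ WK j q 4) :
    ∀ f ∈ KYs j q, a f ∈ KYs j q := by
  have hk : h ∈ KYs j q := by
    have := h4 1 (one_mem j q (by norm_num))
    rw [map_one, one_mul] at this
    exact W_KY j q le_rfl this
  have key : ∀ f ∈ WK j q 4, a f ∈ KYs j q := by
    intro f hf
    have := div_mem (W_KY j q le_rfl (h4 f hf)) hk
    rwa [mul_div_assoc, div_self hh, mul_one] at this
  have : KYs j q ≤ (KYs j q).comap (a : K →+* K) := by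
    unfold KYs
    rw [Subfield.closure_le]
    rintro x (⟨c, rfl⟩ | hx)
    · change a (j c) ∈ KYs j q
      rw [ha]
      exact LF_le_KY j q (j_mem_LF j q c)
    · simp only [Set.mem_insert_iff, Set.mem_singleton_iff] at hx
      rcases hx with rfl | rfl | rfl
      · exact key _ (X_mem j q (by norm_num))
      · exact key _ (Y_mem j q (by norm_num))
      · exact key _ (n_mem j q (by norm_num))
  intro f hf
  exact this hf

end main


lemma mul_w {f : K} (hf : f ∈ WK j q 3) : f * q.w ∈ WK j q 8 := by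
  refine induct (P := fun f => f * q.w ∈ WK j q 8) ?_ ?_ ?_ ?_ hf
  · rw [zero_mul]; exact W_zero j q
  · intro x y hx hy
    rw [add_mul]
    exact W_add j q hx hy
  · intro e x hx
    rw [mul_assoc]
    exact W_smul j q e hx
  · rintro ⟨i, l, t⟩ hs
    rw [mem_regd] at hs
    simp only at hs
    obtain ⟨h0, h1, h2⟩ := hs
    fin_cases t
    · change q.mon (i, l, 0) * q.w ∈ WK j q 8
      rw [← mon_2]
      refine W_mon j q h0 h1 ?_
      simp [dg] at h2 ⊢; omega
    · change q.mon (i, l, 1) * q.w ∈ WK j q 8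
      rw [← mon_3]
      refine W_mon j q h0 h1 ?_
      simp [dg] at h2 ⊢; omega
    · simp [dg] at h2; omega
    · simp [dg] at h2; omega

lemma ev_LF (p : MvPolynomial (Fin 3) k) : q.ev j p ∈ LFs j q := by
  induction p using MvPolynomial.induction_on with
  | C c => rw [Quad.ev_C]; exact j_mem_LF j q c
  | add p p' hp hp' => rw [Quad.ev_add]; exact add_mem hp hp'
  | mul_X p i hp =>
    rw [Quad.ev_mul, Quad.ev_X]
    refine mul_mem hp ?_
    fin_cases i
    · exact X_mem_LF j q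
    · exact Y_mem_LF j q
    · exact (LFs j q).one_mem

/-- elements of `W 2` -/
lemma W2 (h3 : T_FORM) {f : K} (hf : f ∈ WK j q 2) : ∃ (u : k) (s : MvPolynomial (Fin 3) k),
    s.IsHomogeneous 2 ∧ f = j u * q.n + q.ev j s := by
  obtain ⟨P, hP, hfP⟩ := (h3 j q 2 f).1 hf
  have h1 := hP.hom 1 (by simp [dgN])
  have h0 := hP.hom 0 (by simp [dgN])
  have z2 := hP.zero 2 (by simp [dgN])
  have z3 := hP.zero 3 (by simp [dgN])
  simp only [dgN, Matrix.cons_val_one, Matrix.cons_val_zero] at h1 h0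
  refine ⟨(P 1).coeff 0, P 0, h0, ?_⟩
  rw [hfP, ev4, Fin.sum_univ_four, z2, z3]
  have hc : P 1 = MvPolynomial.C ((P 1).coeff 0) := by
    have : (P 1).totalDegree = 0 := by
      rcases eq_or_ne (P 1) 0 with h | h
      · rw [h]; simp
      · exact h1.totalDegree h
    exact MvPolynomial.totalDegree_eq_zero_iff_eq_C.1 this
  rw [hc, Quad.ev_C]
  simp [Quad.e, Quad.ev]
  ring

/-- elements of `W 5` -/
lemma W5 (h3 : T_FORM) {f : K} (hf : f ∈ WK j q 5) : ∃ (u : k) (r0 r1 : MvPolynomial (Fin 3) k),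
    r0.IsHomogeneous 5 ∧ r1.IsHomogeneous 3 ∧ f = j u * q.w + q.ev j r0 + q.ev j r1 * q.n := by
  obtain ⟨P, hP, hfP⟩ := (h3 j q 5 f).1 hf
  have h2 := hP.hom 2 (by simp [dgN])
  have h1 := hP.hom 1 (by simp [dgN])
  have h0 := hP.hom 0 (by simp [dgN])
  have z3 := hP.zero 3 (by simp [dgN])
  simp only [dgN, Matrix.cons_val_one, Matrix.cons_val_zero, Matrix.cons_val] at h1 h0 h2
  refine ⟨(P 2).coeff 0, P 0, P 1, h0, h1, ?_⟩
  rw [hfP, ev4, Fin.sum_univ_four, z3]
  have hc : P 2 = MvPolynomial.C ((P 2).coeff 0) := by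
    have : (P 2).totalDegree = 0 := by
      rcases eq_or_ne (P 2) 0 with h | h
      · rw [h]; simp
      · exact h2.totalDegree h
    exact MvPolynomial.totalDegree_eq_zero_iff_eq_C.1 this
  rw [hc, Quad.ev_C]
  simp [Quad.e, Quad.ev]
  ring

end AKm

open AKm

theorem ak (h1 : T_FFD) (h2 : T_COL) (h3 : T_FORM) : T_AK := by
  intro k K _ _ j q hk2 hF a ha h hh h4 h8 h4' h8'
  obtain ⟨hn, hw, hKY, hKw⟩ := h1 j q hF
  have haKY := a_KY j q a ha hh h4
  have hsj := symm_j j a ha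
  have hh' : (a.symm h)⁻¹ ≠ 0 := inv_ne_zero (by simpa using hh)
  have haKY' : ∀ f ∈ KYs j q, a.symm f ∈ KYs j q := a_KY j q a.symm hsj hh' h4'
  have hhK : h ∈ KYs j q := by
    have := h4 1 (one_mem j q (by norm_num))
    rw [map_one, one_mul] at this
    exact W_KY j q le_rfl this
  -- independence of `1, w`
  have hind : ∀ P ∈ KYs j q, ∀ Q ∈ KYs j q, ∀ P' ∈ KYs j q, ∀ Q' ∈ KYs j q,
      P + Q * q.w = P' + Q' * q.w → Q = Q' := by
    intro P hP Q hQ P' hP' Q' hQ' he
    by_contra hne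
    apply hw
    have hsub : Q - Q' ≠ 0 := sub_ne_zero.2 hne
    have : q.w = (P' - P) / (Q - Q') := by
      rw [eq_div_iff hsub]
      linear_combination he
    rw [this]
    exact div_mem (sub_mem hP' hP) (sub_mem hQ hQ')
  obtain ⟨w0, hw0, w1, hw1, haw⟩ := hKw (a q.w)
  have hw1ne : w1 ≠ 0 := by
    rintro rfl
    rw [zero_mul, add_zero] at haw
    apply hw
    have := haKY' _ (haw ▸ hw0)
    rwa [RingEquiv.symm_apply_apply] at this
  set ka : K := h ^ 2 * w1 with hka
  have hkane : ka ≠ 0 := mul_ne_zero (pow_ne_zero _ hh) hw1ne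
  -- `f ↦ a f * ka` preserves `W 3`
  have hW3 : ∀ f ∈ WK j q 3, a f * ka ∈ WK j q 3 := by
    intro f hf
    have hfK : a f ∈ KYs j q := haKY _ (W_KY j q (by norm_num) hf)
    obtain ⟨P, hP, Q, hQ, hPQ⟩ := W8 j q (h8 _ (mul_w j q hf))
    have he : (a f * w0 * h ^ 2) + (a f * ka) * q.w = P + Q * q.w := by
      rw [← hPQ, map_mul, haw, hka]
      ring
    have := hind _ (mul_mem (mul_mem hfK hw0) (pow_mem hhK 2)) _
      (mul_mem hfK (mul_mem (pow_mem hhK 2) hw1)) _ hP _ (W_KY j q (by norm_num) hQ) he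
    rw [this]
    exact hQ
  have honto3 := onto j q 3 (fun f => a f * ka) (fun x y => by simp only [map_add]; ring)
    (fun c x => by simp only [map_mul, ha]; ring)
    (fun x y hxy => a.injective (mul_right_cancel₀ hkane hxy)) hW3
  set mu : K := h / ka with hmu
  have hmune : mu ≠ 0 := div_ne_zero hh hkane
  have hmuka : mu * ka = h := by rw [hmu]; field_simp
  -- `f ↦ a f * mu` preserves `W 1`
  have hW1 : ∀ f ∈ WK j q 1, a f * mu ∈ WK j q 1 := by
    intro f hf
    have key : ∀ g' ∈ WK j q 3, a f * mu * g' ∈ WK j q 4 := by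
      intro g' hg'
      obtain ⟨g, hg, hgg⟩ := honto3 g' hg'
      have h5 := h4 _ (mul_W1 j q hf hg)
      have e : a (f * g) * h = a f * mu * g' := by
        rw [← hgg, map_mul, ← hmuka]
        ring
      rwa [e] at h5
    have k1 := key 1 (one_mem j q (by norm_num))
    rw [mul_one] at k1
    have k2 := key ((q.X : K) ^ 3) (by
      have m1 := mul_X j q (X_mem j q (d := 1) le_rfl)
      have m2 := mul_X j q m1
      have e : (q.X : K) ^ 3 = q.X * (q.X * q.X) := by ring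
      rw [e]
      exact m2)
    have := h2 j q hF 4 3 _ k1 k2
    norm_num at this
    exact this
  have honto1 := onto j q 1 (fun f => a f * mu) (fun x y => by simp only [map_add]; ring)
    (fun c x => by simp only [map_mul, ha]; ring)
    (fun x y hxy => a.injective (mul_right_cancel₀ hmune hxy)) hW1
  obtain ⟨f1, hf1, hf1e⟩ := honto1 1 (one_mem j q (by norm_num))
  obtain ⟨g1, hg1, hg1e⟩ := honto1 q.X (X_mem j q le_rfl)
  obtain ⟨y1, hy1, hy1e⟩ := honto1 q.Y (Y_mem j q le_rfl)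
  -- (5)
  have hpow4 : ∀ f ∈ WK j q 1, f ^ 4 ∈ WK j q 4 := by
    intro f hf
    have m1 := mul_W1 j q hf (mul_W1 j q hf (mul_W1 j q hf hf))
    have e : f ^ 4 = f * (f * (f * f)) := by ring
    rw [e]
    norm_num at m1
    exact m1
  have h5 : ∀ f ∈ WK j q 1, ∀ x : K, a f * mu = x → h / mu ^ 4 * x ^ 4 ∈ WK j q 4 := by
    intro f hf x hx
    have := h4 _ (hpow4 f hf)
    rw [← hx]
    convert this using 1
    rw [map_pow]
    field_simp
  have h5a := h5 f1 hf1 1 hf1e
  rw [one_pow, mul_one] at h5a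
  have h5b := h5 g1 hg1 _ hg1e
  have h5c := h2 j q hF 4 4 _ h5a h5b
  norm_num at h5c
  obtain ⟨c1, hc1⟩ := W0 j q h5c
  have hhc : h = j c1 * mu ^ 4 := by
    rw [← hc1]
    field_simp
  have hjc : j c1 ≠ 0 := by
    intro h0
    rw [h0, zero_mul] at hhc
    exact hh hhc
  have hjci : ∀ {d : ℤ} {x : K}, j c1 * x ∈ WK j q d → x ∈ WK j q d := by
    intro d x hx
    have := W_smul j q c1⁻¹ hx
    rwa [map_inv₀, ← mul_assoc, inv_mul_cancel₀ hjc, one_mul] at this
  -- (6)
  have h6 : ∀ f ∈ WK j q 1, ∀ x : K, a f * mu = x → a q.n * mu ^ 2 * x ^ 2 ∈ WK j q 4 := by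
    intro f hf x hx
    have m1 := mul_W1 j q hf (mul_W1 j q hf (n_mem j q (d := 2) le_rfl))
    norm_num at m1
    apply hjci
    have := h4 _ m1
    rw [hhc] at this
    rw [← hx]
    convert this using 1
    simp only [map_mul]
    ring
  have h6a := h6 f1 hf1 1 hf1e
  rw [one_pow, mul_one] at h6a
  have h6c := h2 j q hF 4 2 _ h6a (h6 g1 hg1 _ hg1e)
  norm_num at h6c
  obtain ⟨u, s, hs, hus⟩ := W2 j q h3 h6c
  -- (7)
  have h7 : ∀ f ∈ WK j q 1, ∀ x : K, a f * mu = x → a q.w * mu ^ 5 * x ^ 3 ∈ WK j q 8 := by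
    intro f hf x hx
    have m1 := mul_W1 j q hf (mul_W1 j q hf (mul_W1 j q hf (w_mem j q (d := 5) le_rfl)))
    norm_num at m1
    apply hjci
    apply hjci
    have := h8 _ m1
    rw [hhc] at this
    rw [← hx]
    convert this using 1
    simp only [map_mul]
    ring
  have h7a := h7 f1 hf1 1 hf1e
  rw [one_pow, mul_one] at h7a
  have h7c := h2 j q hF 8 3 _ h7a (h7 g1 hg1 _ hg1e)
  norm_num at h7c
  obtain ⟨u', r0, r1, hr0, hr1, hur⟩ := W5 j q h3 h7c
  -- `L`
  have hmuW : mu ∈ WK j q 1 := by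
    have := hW1 1 (one_mem j q (by norm_num))
    rwa [map_one, one_mul] at this
  obtain ⟨l20, l21, l22, hl2⟩ := W1 j q hmuW
  obtain ⟨l00, l01, l02, hl0⟩ := W1 j q (hW1 _ (X_mem j q le_rfl))
  obtain ⟨l10, l11, l12, hl1⟩ := W1 j q (hW1 _ (Y_mem j q le_rfl))
  -- (8)
  have hLF : ∀ x ∈ LFs j q, a.symm x ∈ LFs j q := by
    have hf1ne : a f1 ≠ 0 := by
      intro h0
      rw [h0, zero_mul] at hf1e
      exact zero_ne_one hf1e
    have hf1ne' : f1 ≠ 0 := by
      rintro rfl
      exact hf1ne (map_zero a)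
    have hmu1 : mu = (a f1)⁻¹ := by
      field_simp
      linear_combination hf1e
    have : LFs j q ≤ (LFs j q).comap (a.symm : K →+* K) := by
      conv_lhs => unfold LFs
      rw [Subfield.closure_le]
      rintro x (⟨c, rfl⟩ | hx)
      · change a.symm (j c) ∈ LFs j q
        rw [hsj]
        exact j_mem_LF j q c
      · simp only [Set.mem_insert_iff, Set.mem_singleton_iff] at hx
        rcases hx with rfl | rfl
        · change a.symm (q.X : K) ∈ LFs j q
          rw [← hg1e, hmu1, map_mul, map_inv₀, RingEquiv.symm_apply_apply,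
            RingEquiv.symm_apply_apply]
          exact mul_mem (W1_LF j q hg1) (inv_mem (W1_LF j q hf1))
        · change a.symm (q.Y : K) ∈ LFs j q
          rw [← hy1e, hmu1, map_mul, map_inv₀, RingEquiv.symm_apply_apply,
            RingEquiv.symm_apply_apply]
          exact mul_mem (W1_LF j q hy1) (inv_mem (W1_LF j q hf1))
    exact fun x hx => this hx
  have hune : u ≠ 0 := by
    rintro rfl
    rw [map_zero, zero_mul, zero_add] at hus
    have e : a q.n = q.ev j s / mu ^ 2 := by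
      rw [← hus]
      field_simp
    have hm : a q.n ∈ LFs j q := by
      rw [e]
      exact div_mem (ev_LF j q s) (pow_mem (W1_LF j q hmuW) 2)
    have := hLF _ hm
    rw [RingEquiv.symm_apply_apply] at this
    exact hn this
  have hu'ne : u' ≠ 0 := by
    rintro rfl
    rw [map_zero, zero_mul, zero_add] at hur
    have e : a q.w = (q.ev j r0 + q.ev j r1 * q.n) / mu ^ 5 := by
      rw [← hur]
      field_simp
    have hm : a q.w ∈ KYs j q := by
      rw [e]
      exact div_mem (add_mem (LF_le_KY j q (ev_LF j q r0))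
        (mul_mem (LF_le_KY j q (ev_LF j q r1)) (n_mem_KY j q)))
        (pow_mem (LF_le_KY j q (W1_LF j q hmuW)) 5)
    have := haKY' _ hm
    rw [RingEquiv.symm_apply_apply] at this
    exact hw this
  refine ⟨![![l00, l01, l02], ![l10, l11, l12], ![l20, l21, l22]], mu, u, u', s, r0, r1,
    ⟨?_, ?_, ?_, ?_, ?_⟩, hmune, hune, hu'ne, hs, hr0, hr1⟩
  · change mu * a (q.X : K) = _
    simp only [Matrix.cons_val_zero, Matrix.cons_val_one, Matrix.cons_val]
    rw [mul_comm, hl0]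
  · change mu * a (q.Y : K) = _
    simp only [Matrix.cons_val_zero, Matrix.cons_val_one, Matrix.cons_val]
    rw [mul_comm, hl1]
  · simp only [Matrix.cons_val_zero, Matrix.cons_val_one, Matrix.cons_val]
    exact hl2
  · change mu ^ 2 * a q.n = _
    rw [mul_comm, hus]
  · change mu ^ 5 * a q.w = _
    rw [mul_comm, hur]

end Pool.Agent.H1.CM
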