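import Pool.Agent.H17.CMX.AUT

/-!
Module AMP: the canonical sheaf of the special fibre is ample.
-/

open CategoryTheory AlgebraicGeometry Limits

namespace Pool.Agent.H1.CM

namespace AMPm

open AUTm

lemma gen_eq {K : Type} [CommRing K] (q : Quad K) (r : Fin 3) :
    q.gen r = ((q.cu r : Kˣ) : K) ^ 4 := by
  fin_cases r <;> simp [Quad.gen, Quad.cu]

lemma ratio_eq {K : Type} [Field K] (q : Quad K) (r r' : Fin 3) :
    q.ratio r r' = ((q.cu r' : Kˣ) : K) * ((q.cu r : Kˣ) : K)⁻¹ := by
  unfold Quad.ratio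
  rw [Units.val_mul, Units.val_inv_eq_inv_val]

lemma gen_ratio {K : Type} [Field K] (q : Quad K) (r r' : Fin 3) :
    q.gen r = q.ratio r' r ^ 4 * q.gen r' := by
  rw [gen_eq, gen_eq, ratio_eq]
  have := (q.cu r').ne_zero
  field_simp

lemma smul_inj {K M : Type} [Field K] [AddCommMonoid M] [Module K M] {η : M} (hη : η ≠ 0)
    {c c' : K} (h : c • η = c' • η) : c = c' := by
  by_contra hne
  let _ := Module.addCommMonoidToAddCommGroup K (M := M)
  have : (c - c') • η = 0 := by rw [sub_smul, h, sub_self]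
  apply hη
  have h2 : (c - c')⁻¹ • ((c - c') • η) = 0 := by rw [this, smul_zero]
  rwa [smul_smul, inv_mul_cancel₀ (sub_ne_zero.2 hne), one_smul] at h2

lemma span_le {K M : Type} [Field K] [AddCommMonoid M] [Module K M] (R : Subring K) {η : M}
    (hη : η ≠ 0) {g g' : K} (h : Submodule.span R {g • η} = Submodule.span R {g' • η}) :
    ∃ v ∈ R, g' = v * g := by
  have h3 : g' • η ∈ Submodule.span R {g • η} := by
    rw [h]
    exact Submodule.mem_span_singleton_self _
  obtain ⟨v, hv⟩ := Submodule.mem_span_singleton.1 h3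
  refine ⟨v, v.2, smul_inj hη ?_⟩
  rw [mul_smul]
  exact hv.symm

end AMPm

open AUTm AMPm

theorem amp (h1 : T_OMG) (h2 : T_FFX) : T_AMP := by
  intro k _ hk2 X₀ s₀ S₀ _
  obtain ⟨hg, hF⟩ := h2 hk2 s₀ S₀
  unfold CanonicalAmple
  let _ := (constants s₀).toAlgebra
  obtain ⟨η, hη, hspan, hgen⟩ := h1 hk2 s₀ S₀ hg
  refine ⟨η, hη, fun x => ?_⟩
  have hcov : ∀ y : X₀, ∃ r, y ∈ S₀.V {r} := by
    intro y
    have hy : y ∈ (⊤ : X₀.Opens) := trivial
    rw [← S₀.cover, TopologicalSpace.Opens.mem_iSup] at hy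
    exact hy
  have hch : ∀ (r : Fin 3) (y : X₀), y ∈ S₀.V {r} ↔
      ∀ r' : Fin 3, (S₀.qK hg).ratio r r' ∈ localSub X₀ y := by
    intro r y
    rw [chart_iff S₀ hg]
    refine forall_congr' fun r' => ?_
    rw [show (S₀.qK hg).ratio r r' = _ from ratio_map _ _ _ _]
  obtain ⟨r, hxr⟩ := hcov x
  refine ⟨1, le_rfl, (S₀.qK hg).gen r, ?_, S₀.V {r}, S₀.affine {r} (Finset.singleton_nonempty r),
    hxr, ?_⟩
  · intro y
    obtain ⟨r', hy⟩ := hcov y
    refine ⟨(S₀.qK hg).gen r', hgen r' y hy, (S₀.qK hg).ratio r' r ^ 4,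
      pow_mem ((hch r' y).1 hy r) 4, ?_⟩
    rw [pow_one]
    exact gen_ratio _ _ _
  · intro y
    constructor
    · intro hy
      exact ⟨(S₀.qK hg).gen r, hgen r y hy, 1, one_mem _, one_ne_zero, by simp [one_mem], by simp⟩
    · rintro ⟨g, hgG, h, hhR, hh0, hhinv, hf⟩
      rw [pow_one] at hf
      obtain ⟨r', hy⟩ := hcov y
      have hG := hgen r' y hy
      have hgenne : ∀ r, (S₀.qK hg).gen r ≠ 0 := by
        intro r
        rw [gen_eq]
        exact pow_ne_zero _ (Units.ne_zero _)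
      have hgne : g ≠ 0 := by
        rintro rfl
        rw [mul_zero] at hf
        exact hgenne r hf
      have hspans : Submodule.span (localSub X₀ y) {g • η} =
          Submodule.span (localSub X₀ y) {(S₀.qK hg).gen r' • η} := hgG.trans hG.symm
      obtain ⟨v', hv'R, hv'e⟩ := span_le _ hη hspans
      -- the ratio is invertible
      have hρ0 : (S₀.qK hg).ratio r' r ≠ 0 := by
        unfold Quad.ratio
        exact Units.ne_zero _
      have hρ : (S₀.qK hg).ratio r' r ∈ localSub X₀ y := (hch r' y).1 hy r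
      have hρinv : ((S₀.qK hg).ratio r' r)⁻¹ ∈ localSub X₀ y := by
        have e1 := gen_ratio (S₀.qK hg) r r'
        rw [hf, hv'e] at e1
        have hv'ne : v' ≠ 0 := by
          intro h0
          rw [h0, zero_mul] at hv'e
          exact hgenne r' hv'e
        have e2 : ((S₀.qK hg).ratio r' r)⁻¹ =
            (S₀.qK hg).ratio r' r ^ 3 * (v' * h⁻¹) := by
          have e3 : h = (S₀.qK hg).ratio r' r ^ 4 * v' := by
            apply mul_right_cancel₀ hgne
            rw [e1]
            ring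
          rw [e3]
          field_simp
        rw [e2]
        exact mul_mem (pow_mem hρ 3) (mul_mem hv'R hhinv)
      rw [hch]
      intro r''
      have e4 : (S₀.qK hg).ratio r r'' =
          (S₀.qK hg).ratio r' r'' * ((S₀.qK hg).ratio r' r)⁻¹ := by
        rw [ratio_eq, ratio_eq, ratio_eq]
        have a1 := ((S₀.qK hg).cu r).ne_zero
        have a2 := ((S₀.qK hg).cu r').ne_zero
        field_simp
      rw [e4]
      exact mul_mem ((hch r' y).1 hy r'') hρinv

end Pool.Agent.H1.CM
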