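import Pool.Agent.H1.CM.Targets2
import Pool.Agent.H1.CM.SBasic

/-!
Module AUT: automorphisms of the special fibre preserve the charts and the coordinates.
-/

open CategoryTheory AlgebraicGeometry Limits

namespace Pool.Agent.H1.CM

namespace AUTm

lemma ratio_map {C C' : Type} [CommRing C] [CommRing C'] (φ : C →+* C') (q : Quad C)
    (r r' : Fin 3) : (q.map φ).ratio r r' = φ (q.ratio r r') := by
  have hcu : ∀ r : Fin 3, (q.map φ).cu r = Units.map φ.toMonoidHom (q.cu r) := by
    intro r
    fin_cases r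
    · rfl
    · rfl
    · change (1 : C'ˣ) = Units.map φ.toMonoidHom 1
      rw [map_one]
  unfold Quad.ratio
  rw [hcu, hcu, ← map_inv, ← map_mul]
  rfl

/-- the exponents of `x_{r'} / x_r` -/
def ex (r r' : Fin 3) : Idx :=
  ((if r' = 0 then 1 else 0) - (if r = 0 then 1 else 0),
    (if r' = 1 then 1 else 0) - (if r = 1 then 1 else 0), 0)

lemma ratio_mon {C : Type} [CommRing C] (q : Quad C) (r r' : Fin 3) :
    q.ratio r r' = q.mon (ex r r') := by
  fin_cases r <;> fin_cases r' <;> simp [Quad.ratio, Quad.cu, Quad.mon, ex, Quad.e, mul_comm]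

lemma ex_reg (r r' : Fin 3) : ex r r' ∈ reg {r} := by
  intro ρ hρ
  fin_cases r <;> fin_cases r' <;> fin_cases ρ <;>
    simp [ex, expo, dg] at hρ ⊢

section

variable {A : Type} [CommRing A] {X : Scheme.{0}} {f : X ⟶ Spec (CommRingCat.of A)}
  {D : Data A} (S : StdOver f D)

/-- `x_{r'} / x_r` is the restriction of a section over `V {r}` -/
lemma ratio_ext (r r' : Fin 3) : ∃ u : Γ(X, S.V {r}),
    rs X (S.le {r} (Finset.singleton_nonempty r)) u = S.q.ratio r r' := by
  have h1 : S.q.ratio r r' ∈ BX X S.V {r} := by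
    rw [S.frame.mem {r} (Finset.singleton_nonempty r)]
    refine ⟨Finsupp.single (ex r r') 1, ?_, ?_⟩
    · intro s hs
      have := Finsupp.support_single_subset hs
      rw [Finset.mem_singleton] at this
      rw [this]
      exact ex_reg r r'
    · rw [comb_single, map_one, one_mul, ratio_mon]
  unfold BX at h1
  rw [dif_pos (S.le {r} (Finset.singleton_nonempty r))] at h1
  exact h1

variable [IsIntegral X]

lemma germ_rs {U V : X.Opens} (h : U ≤ V) (hU : genericPoint X ∈ U) (hV : genericPoint X ∈ V)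
    (u : Γ(X, V)) : (X.presheaf.germ U (genericPoint X) hU).hom (rs X h u) =
      (X.presheaf.germ V (genericPoint X) hV).hom u := by
  unfold rs
  exact X.presheaf.germ_res_apply (homOfLE h) (genericPoint X) hU u

lemma algebraMap_germ {U : X.Opens} (y : X) (hy : y ∈ U) (hU : genericPoint X ∈ U)
    (u : Γ(X, U)) : algebraMap (X.presheaf.stalk y) X.functionField
      ((X.presheaf.germ U y hy).hom u) = (X.presheaf.germ U (genericPoint X) hU).hom u := by
  change (X.presheaf.stalkSpecializes _).hom _ = _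
  rw [← CommRingCat.comp_apply, TopCat.Presheaf.germ_stalkSpecializes]

/-- The chart `V {r}` in terms of the local ring. -/
lemma chart_iff (hg : genericPoint X ∈ S.V Finset.univ) (r : Fin 3) (y : X) :
    y ∈ S.V {r} ↔ ∀ r' : Fin 3,
      (X.presheaf.germ (S.V Finset.univ) (genericPoint X) hg).hom (S.q.ratio r r') ∈
        localSub X y := by
  have hgr : ∀ r : Fin 3, genericPoint X ∈ S.V {r} := fun r =>
    S.le {r} (Finset.singleton_nonempty r) hg
  -- germs of sections over `V {r}`
  have key : ∀ (r : Fin 3) (y : X) (hy : y ∈ S.V {r}) (u : Γ(X, S.V {r})) (c : _),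
      rs X (S.le {r} (Finset.singleton_nonempty r)) u = c →
      algebraMap (X.presheaf.stalk y) X.functionField ((X.presheaf.germ (S.V {r}) y hy).hom u) =
        (X.presheaf.germ (S.V Finset.univ) (genericPoint X) hg).hom c := by
    intro r y hy u c hu
    rw [algebraMap_germ y hy (hgr r), ← hu, germ_rs]
  constructor
  · intro hy r'
    obtain ⟨u, hu⟩ := ratio_ext S r r'
    exact ⟨_, key r y hy u _ hu⟩
  · intro h
    have hy : y ∈ (⊤ : X.Opens) := trivial
    rw [← S.cover, TopologicalSpace.Opens.mem_iSup] at hy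
    obtain ⟨ρ, hρ⟩ := hy
    obtain ⟨u, hu⟩ := ratio_ext S ρ r
    obtain ⟨v, hv⟩ := h ρ
    have h1 := key ρ y hρ u _ hu
    have hprod : S.q.ratio ρ r * S.q.ratio r ρ = 1 := by
      unfold Quad.ratio
      rw [← Units.val_mul]
      have : S.q.cu r * (S.q.cu ρ)⁻¹ * (S.q.cu ρ * (S.q.cu r)⁻¹) = 1 := by
        group
      rw [this]
      rfl
    have hinj : Function.Injective (algebraMap (X.presheaf.stalk y) X.functionField) :=
      IsFractionRing.injective _ _
    have h2 : (X.presheaf.germ (S.V {ρ}) y hρ).hom u * v = 1 := by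
      apply hinj
      rw [map_mul, h1, hv, ← map_mul, hprod, map_one, map_one]
    have h3 : y ∈ X.basicOpen u := by
      rw [Scheme.mem_basicOpen _ _ _ hρ]
      exact IsUnit.of_mul_eq_one _ h2
    rw [S.basic ρ r u hu] at h3
    have h4 : S.V {ρ} ⊓ S.V {r} = S.V {ρ, r} :=
      S.inter {ρ} {r} (Finset.singleton_nonempty _) (Finset.singleton_nonempty _)
    rw [← h4] at h3
    exact h3.2

end

end AUTm

open AUTm

theorem aut (h1 : T_INT) (h2 : T_FFX) (h3 : T_OMG) (h4 : T_CANF) (h5 : T_AUTF) (h6 : T_FORMA)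
    (h7 : T_AUTK) : T_AUT := by
  intro k _ hk2 X₀ s₀ S₀ α hα
  have : IsIntegral X₀ := h1 hk2 s₀ S₀
  obtain ⟨hg, hF⟩ := h2 hk2 s₀ S₀
  let _ := (constants s₀).toAlgebra
  obtain ⟨η, hη, hspan, hgen⟩ := h3 hk2 s₀ S₀ hg
  obtain ⟨a, hac, hloc, hgerm⟩ := h5 s₀ α hα
  obtain ⟨hh, hhne, hreg⟩ := h6 (k := k) (K := X₀.functionField) a (fun c => hac c) η hη hspan
  have hcan := h4 hk2 s₀ S₀ hg η hη hgen
  have key : ∀ n : ℕ, ∀ f ∈ WK (constants s₀) (S₀.qK hg) (4 * n),
      a f * hh ^ n ∈ WK (constants s₀) (S₀.qK hg) (4 * n) := by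
    intro n f hf
    refine (hcan n _).1 fun y => ?_
    exact (hreg _ _ (hloc y) n f).1 ((hcan n f).2 hf (α.hom y))
  have key' : ∀ n : ℕ, ∀ f ∈ WK (constants s₀) (S₀.qK hg) (4 * n),
      a.symm f * (a.symm hh)⁻¹ ^ n ∈ WK (constants s₀) (S₀.qK hg) (4 * n) := by
    intro n f hf
    refine (hcan n _).1 fun z => ?_
    obtain ⟨y, rfl⟩ : ∃ y, α.hom y = z := ⟨α.inv z, by
      rw [← Scheme.Hom.comp_apply, Iso.inv_hom_id]; rfl⟩
    exact (hreg _ _ (hloc y) n f).2 ((hcan n f).2 hf y)
  obtain ⟨aX, aY, an⟩ := h7 (constants s₀) (S₀.qK hg) hk2 hF a hac hh hhne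
    (by simpa using key 1) (by simpa using key 2) (by simpa using key' 1) (by simpa using key' 2)
  -- `a` fixes the ratios
  have hratio : ∀ r r' : Fin 3,
      a ((X₀.presheaf.germ (S₀.V Finset.univ) (genericPoint X₀) hg).hom (S₀.q.ratio r r')) =
        (X₀.presheaf.germ (S₀.V Finset.univ) (genericPoint X₀) hg).hom (S₀.q.ratio r r') := by
    intro r r'
    have e : (X₀.presheaf.germ (S₀.V Finset.univ) (genericPoint X₀) hg).hom (S₀.q.ratio r r') =
        (S₀.qK hg).ratio r r' := (ratio_map _ _ _ _).symm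
    have hcu : ∀ r : Fin 3, a ((S₀.qK hg).cu r : X₀.functionField) = ((S₀.qK hg).cu r) := by
      intro r
      fin_cases r
      · exact aX
      · exact aY
      · exact map_one a
    rw [e]
    unfold Quad.ratio
    rw [Units.val_mul, Units.val_inv_eq_inv_val, map_mul, map_inv₀, hcu, hcu]
  have hpt : ∀ (r : Fin 3) (y : X₀), α.hom y ∈ S₀.V {r} ↔ y ∈ S₀.V {r} := by
    intro r y
    rw [chart_iff S₀ hg, chart_iff S₀ hg]
    refine forall_congr' fun r' => ?_
    constructor
    · intro h
      rw [← hratio, ← hloc y]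
      exact ⟨_, h, rfl⟩
    · intro h
      rw [← hloc y] at h
      obtain ⟨c, hc, hce⟩ := h
      have : c = (X₀.presheaf.germ (S₀.V Finset.univ) (genericPoint X₀) hg).hom
          (S₀.q.ratio r r') := by
        apply a.injective
        rw [hratio]
        exact hce
      rw [← this]
      exact hc
  have hone : ∀ r : Fin 3, α.hom ⁻¹ᵁ (S₀.V {r}) = S₀.V {r} := by
    intro r
    ext y
    exact hpt r y
  have hV : ∀ S : Finset (Fin 3), α.hom ⁻¹ᵁ (S₀.V S) = S₀.V S := by
    intro S
    induction S using Finset.induction_on with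
    | empty => rw [S₀.emp]; rfl
    | insert r T hr ih =>
      rcases T.eq_empty_or_nonempty with rfl | hT
      · exact hone r
      · have e : S₀.V {r} ⊓ S₀.V T = S₀.V (insert r T) :=
          S₀.inter {r} T (Finset.singleton_nonempty r) hT
        rw [← e]
        change (α.hom ⁻¹ᵁ S₀.V {r}) ⊓ (α.hom ⁻¹ᵁ S₀.V T) = _
        rw [hone, ih]
  refine ⟨hV, (hV Finset.univ).ge, ?_⟩
  have hle : S₀.V Finset.univ ≤ α.hom ⁻¹ᵁ (S₀.V Finset.univ) := (hV Finset.univ).ge
  have hring : ∀ c : Γ(X₀, S₀.V Finset.univ),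
      (X₀.presheaf.germ (S₀.V Finset.univ) (genericPoint X₀) hg).hom
        ((α.hom.appLE (S₀.V Finset.univ) (S₀.V Finset.univ) hle).hom c) =
      a ((X₀.presheaf.germ (S₀.V Finset.univ) (genericPoint X₀) hg).hom c) := by
    intro c
    rw [hgerm (S₀.V Finset.univ) hg (hle hg) c]
    have : (α.hom.appLE (S₀.V Finset.univ) (S₀.V Finset.univ) hle).hom c =
        rs X₀ hle ((α.hom.app (S₀.V Finset.univ)).hom c) := rfl
    rw [this, germ_rs]
  have hginj : Function.Injective
      (X₀.presheaf.germ (S₀.V Finset.univ) (genericPoint X₀) hg).hom :=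
    germ_injective_of_isIntegral X₀ (genericPoint X₀) hg
  refine ⟨?_, ?_, ?_⟩
  · apply hginj
    rw [hring]
    exact aX
  · apply hginj
    rw [hring]
    exact aY
  · rcases an with an | an
    · left
      apply hginj
      rw [hring]
      exact an
    · right
      apply hginj
      rw [hring, map_add, map_mul]
      exact an

end Pool.Agent.H1.CM
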