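import Pool.Agent.H1.CM.Targets2

/-!
Module AUTF: action of an automorphism of the special fibre on the function field.
-/

open CategoryTheory AlgebraicGeometry Limits

namespace Pool.Agent.H1.CM

theorem autf : T_AUTF := by
  intro k _ X₀ s₀ _ α hα
  have hgen : α.hom (genericPoint X₀) = genericPoint X₀ :=
    genericPoint_eq_of_isOpenImmersion α.hom
  have hs : α.hom (genericPoint X₀) ⤳ genericPoint X₀ := by rw [hgen]
  have hs' : genericPoint X₀ ⤳ α.hom (genericPoint X₀) := by rw [hgen]
  have hiso : IsIso (X₀.presheaf.stalkSpecializes hs) :=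
    (X₀.presheaf.stalkCongr (.of_eq hgen.symm)).isIso_hom
  let e : X₀.functionField ≅ X₀.functionField :=
    asIso (X₀.presheaf.stalkSpecializes hs) ≪≫ asIso (α.hom.stalkMap (genericPoint X₀))
  let a : X₀.functionField ≃+* X₀.functionField := e.commRingCatIsoToRingEquiv
  have ha : ∀ x : X₀.functionField, a x = (α.hom.stalkMap (genericPoint X₀)).hom
      ((X₀.presheaf.stalkSpecializes hs).hom x) := fun x => rfl
  have hgerm : ∀ (U : X₀.Opens) (h : genericPoint X₀ ∈ U) (h' : genericPoint X₀ ∈ α.hom ⁻¹ᵁ U)
      (c : Γ(X₀, U)), a ((X₀.presheaf.germ U (genericPoint X₀) h).hom c)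
        = (X₀.presheaf.germ (α.hom ⁻¹ᵁ U) (genericPoint X₀) h').hom ((α.hom.app U).hom c) := by
    intro U h h' c
    rw [ha]
    have e1 : (X₀.presheaf.stalkSpecializes hs).hom
        ((X₀.presheaf.germ U (genericPoint X₀) h).hom c) =
        (X₀.presheaf.germ U (α.hom (genericPoint X₀)) h').hom c := by
      have := X₀.presheaf.germ_stalkSpecializes h hs
      have := congrArg (fun z => z.hom c) this
      exact this
    rw [e1]
    exact Scheme.Hom.germ_stalkMap_apply α.hom U (genericPoint X₀) h' c
  refine ⟨a, ?_, ?_, hgerm⟩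
  · intro c
    unfold constants
    simp only [RingHom.comp_apply]
    rw [hgerm ⊤ trivial trivial]
    have : (α.hom.app ⊤).hom ((s₀.appTop).hom ((Scheme.ΓSpecIso (CommRingCat.of k)).inv.hom c)) =
        (s₀.appTop).hom ((Scheme.ΓSpecIso (CommRingCat.of k)).inv.hom c) := by
      have h1 : s₀.appTop ≫ α.hom.appTop = s₀.appTop := by
        rw [← Scheme.Hom.comp_appTop, hα]
      have := congrArg (fun z => z.hom ((Scheme.ΓSpecIso (CommRingCat.of k)).inv.hom c)) h1
      exact this
    rw [this]
    rfl
  · intro y
    have key : ∀ x : X₀.presheaf.stalk (α.hom y),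
        a (algebraMap (X₀.presheaf.stalk (α.hom y)) X₀.functionField x) =
          algebraMap (X₀.presheaf.stalk y) X₀.functionField ((α.hom.stalkMap y).hom x) := by
      intro x
      rw [ha]
      have hy : genericPoint X₀ ⤳ y := (genericPoint_spec X₀).specializes trivial
      have hy' : genericPoint X₀ ⤳ α.hom y := (genericPoint_spec X₀).specializes trivial
      have e1 : (X₀.presheaf.stalkSpecializes hs).hom
          (algebraMap (X₀.presheaf.stalk (α.hom y)) X₀.functionField x) =
          (X₀.presheaf.stalkSpecializes (α.hom.base.hom.map_specializes hy)).hom x := by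
        have := X₀.presheaf.stalkSpecializes_comp hs hy'
        have := congrArg (fun z => z.hom x) this
        exact this
      rw [e1]
      exact Scheme.Hom.stalkSpecializes_stalkMap_apply α.hom (genericPoint X₀) y hy x
    ext z
    constructor
    · rintro ⟨w, ⟨x, rfl⟩, rfl⟩
      exact ⟨_, (key x).symm⟩
    · rintro ⟨x, rfl⟩
      have hbij : Function.Surjective (α.hom.stalkMap y).hom := by
        have : IsIso (α.hom.stalkMap y) := inferInstance
        exact (ConcreteCategory.bijective_of_isIso (α.hom.stalkMap y)).2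
      obtain ⟨x', rfl⟩ := hbij x
      exact ⟨_, ⟨x', rfl⟩, key x'⟩

end Pool.Agent.H1.CM
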