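import Pool.Agent.H1.CM.Targets1

/-!
Module AUTK: automorphisms of the function field which preserve the canonical forms.
-/

namespace Pool.Agent.H1.CM

namespace AUTKm

lemma lsub_zero {A : Type} [CommRing A] (L : Fin 3 → Fin 3 → A) : lsub L 0 = 0 := by
  simp [lsub]

end AUTKm

theorem autk (h1 : T_AK) (h2 : T_RELD) (h3 : T_STAB) (h4 : T_UNQ) : T_AUTK := by
  intro k K _ _ j q hk2 hF a ha h hh e4 e8 e4' e8'
  obtain ⟨L, lam, u, u', s, r0, r1, hrel, hlam, hu, hu', hs, hr0, hr1⟩ :=
    h1 j q hk2 hF a ha h hh e4 e8 e4' e8'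
  have hq' : (q.map (a : K →+* K)).Rel j (std 0) := by
    have := hF.rel.map (RingHom.id k) (a : K →+* K) (fun c => by simpa using ha c)
    rwa [std_map, map_zero] at this
  have hD := std_hom (0 : k)
  obtain ⟨c1, c2, c3, c4, c5, c6⟩ := h2 j q (q.map (a : K →+* K)) hk2 hF.inj (std 0) (std 0) hD hD
    hF.rel hq' L lam u u' s r0 r1 hrel hs hr0 hr1 (Ne.isUnit hu) (Ne.isUnit hu')
  have hb1 : (std (0 : k)).b1 = 0 := rfl
  rw [hb1, AUTKm.lsub_zero] at c4
  rw [hb1] at c5 c6
  obtain ⟨z, hz, hL, huz, hsz⟩ := h3 hk2 L u u' s r0 r1 hs hr0 hr1 hu hu' c1 c2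
    (by simpa using c4) (by simpa using c5) (by simpa using c6)
  have hz2 : lam = j z := by
    rw [hrel.hz, hL, hL, hL]
    simp
  have hjz : j z ≠ 0 := by rwa [← hz2]
  have hx := hrel.hx
  have hy := hrel.hy
  have hn := hrel.hn
  rw [hL, hL, hL, hz2] at hx hy
  refine ⟨?_, ?_, ?_⟩
  · have : j z * a (q.X : K) = j z * q.X := by
      have e : ((q.map (a : K →+* K)).X : K) = a (q.X : K) := rfl
      rw [← e, hx]
      simp
    exact mul_left_cancel₀ hjz this
  · have : j z * a (q.Y : K) = j z * q.Y := by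
      have e : ((q.map (a : K →+* K)).Y : K) = a (q.Y : K) := rfl
      rw [← e, hy]
      simp
    exact mul_left_cancel₀ hjz this
  · have e : (q.map (a : K →+* K)).n = a q.n := rfl
    rw [e, hz2, huz] at hn
    rcases hsz with h0 | h0
    · left
      rw [h0] at hn
      have : j z ^ 2 * a q.n = j z ^ 2 * q.n := by
        rw [hn]
        simp [Quad.ev]
      exact mul_left_cancel₀ (pow_ne_zero 2 hjz) this
    · right
      rw [h0, huz] at hn
      have : j z ^ 2 * a q.n = j z ^ 2 * (q.n + q.X * q.Y) := by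
        rw [hn, Quad.ev_mul, Quad.ev_C, map_pow]
        simp only [std, Quad.ev_mul, Quad.ev_X, Quad.vec, Matrix.cons_val_zero,
          Matrix.cons_val_one]
        ring
      exact mul_left_cancel₀ (pow_ne_zero 2 hjz) this

end Pool.Agent.H1.CM
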