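import Pool.Agent.H1.CM.Targets3

/-!
Module PPR: properness of the model.
-/

open CategoryTheory AlgebraicGeometry Limits MvPolynomial

namespace Pool.Agent.H1.CM

namespace PPRm

lemma alg_eq {P : Type} [CommRing P] (D : Data P) (c : P) :
    ∑ t : Fin 4, Ideal.Quotient.mk (ID D) (emb ((![C c, 0, 0, 0] : Fin 4 →
      MvPolynomial (Fin 3) P) t)) * eg D t = algebraMap P (SD D) c := by
  rw [Fin.sum_univ_four]
  simp [eg]
  rfl

end PPRm

open PPRm

theorem ppr (h1 : T_GB) (h2 : T_GH) : T_PPR := by
  intro P _ D _
  have hft : Algebra.FiniteType P (SD D) := inferInstance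
  have hst : IsScalarTower P (grD D 0) (SD D) := by
    exact IsScalarTower.of_algebraMap_eq (R := P) (S := grD D 0) (A := SD D) fun x => rfl
  have hft0 : Algebra.FiniteType (grD D 0) (SD D) :=
    Algebra.FiniteType.of_restrictScalars_finiteType P (grD D 0) (SD D)
  have hbij : Function.Bijective (algebraMap P (grD D 0)) := by
    constructor
    · rw [injective_iff_map_eq_zero]
      intro c hc
      have hc' : algebraMap P (SD D) c = 0 := by
        have := congrArg Subtype.val hc
        exact this
      obtain ⟨p, -, hp⟩ := h1 D 0
      have e1 := hp ![C c, 0, 0, 0] (by simp only []; rw [alg_eq, hc'])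
      have e2 := hp (fun _ => 0) (by simp)
      have e3 := congrFun (e1.trans e2.symm) 0
      simpa using e3
    · rintro ⟨f, hf⟩
      obtain ⟨p, hp, hpf⟩ := (h2 D 0 f).1 hf
      have hz : ∀ t : Fin 4, t ≠ 0 → p t = 0 := by
        intro t ht
        apply hp.zero
        fin_cases t
        · exact absurd rfl ht
        all_goals simp [dgN]
      have h0 : (p 0).IsHomogeneous 0 := by
        have := hp.hom 0 (by simp [dgN])
        simpa [dgN] using this
      have hc : p 0 = C ((p 0).coeff 0) := by
        have : (p 0).totalDegree = 0 := by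
          rcases eq_or_ne (p 0) 0 with h | h
          · rw [h]; simp
          · exact h0.totalDegree h
        exact MvPolynomial.totalDegree_eq_zero_iff_eq_C.1 this
      refine ⟨(p 0).coeff 0, Subtype.ext ?_⟩
      change algebraMap P (SD D) _ = f
      rw [hpf, ← alg_eq]
      refine Finset.sum_congr rfl fun t _ => ?_
      congr 3
      rcases eq_or_ne t 0 with rfl | ht
      · exact hc.symm
      · rw [hz t ht]
        fin_cases t
        · exact absurd rfl ht
        all_goals rfl
  have hiso : IsIso (CommRingCat.ofHom (algebraMap P (grD D 0))) :=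
    (ConcreteCategory.isIso_iff_bijective _).2 hbij
  have hprop : IsProper (Proj.toSpecZero (grD D)) := inferInstance
  unfold projStr
  infer_instance

end Pool.Agent.H1.CM
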